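import Pool.Agent.N725.JC.Main

set_option autoImplicit false

/-! # Cosets of subgroups of the multiplicative group: sums of values of polynomials, and record gaps -/

namespace Pool.Agent.L5helper16.PC

open Finset Polynomial Filter

section

variable {p : ℕ} [Fact p.Prime]

open Classical in
/-- the residues `a y ^ m`, `y ≠ 0` -/
noncomputable def cst (a : ZMod p) (m : ℕ) : Finset (ZMod p) :=
  (univ : Finset (ZMod p)ˣ).image (fun y : (ZMod p)ˣ => a * (y : ZMod p) ^ m)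

open Classical in
lemma fiber (a : ZMod p) (ha : a ≠ 0) (m : ℕ) (hm : m ∣ p - 1) (y0 : (ZMod p)ˣ) :
    ((univ : Finset (ZMod p)ˣ).filter (fun y : (ZMod p)ˣ => a * (y : ZMod p) ^ m = a * (y0 : ZMod p) ^ m)).card = m := by
  have hp : p.Prime := Fact.out
  have h1 : Nat.card (powMonoidHom m : (ZMod p)ˣ →* (ZMod p)ˣ).ker = m := by
    rw [IsCyclic.card_powMonoidHom_ker, Nat.card_eq_fintype_card, ZMod.card_units_eq_totient,
      Nat.totient_prime hp]
    exact Nat.gcd_eq_right hm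
  have h2 : ((univ : Finset (ZMod p)ˣ).filter
      (fun y : (ZMod p)ˣ => a * (y : ZMod p) ^ m = a * (y0 : ZMod p) ^ m)).card =
      ((univ : Finset (ZMod p)ˣ).filter (fun y => y ^ m = 1)).card := by
    apply card_bij (fun y _ => y * y0⁻¹)
    · intro y hy
      rw [mem_filter] at hy ⊢
      refine ⟨mem_univ _, ?_⟩
      have h3 := mul_left_cancel₀ ha hy.2
      have h4 : y ^ m = y0 ^ m := by
        apply Units.ext
        push_cast
        exact h3
      rw [mul_pow, h4, inv_pow, mul_inv_cancel]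
    · intro y _ z _ h
      exact mul_right_cancel h
    · intro z hz
      rw [mem_filter] at hz
      refine ⟨z * y0, ?_, by simp⟩
      rw [mem_filter]
      refine ⟨mem_univ _, ?_⟩
      have h4 : (z * y0) ^ m = y0 ^ m := by rw [mul_pow, hz.2, one_mul]
      have h5 : (((z * y0 : (ZMod p)ˣ) : ZMod p)) ^ m = (y0 : ZMod p) ^ m := by
        have := congrArg (fun u : (ZMod p)ˣ => (u : ZMod p)) h4
        simpa using this
      rw [h5]
  rw [h2]
  have h6 : ((univ : Finset (ZMod p)ˣ).filter (fun y => y ^ m = 1)).card =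
      Nat.card (powMonoidHom m : (ZMod p)ˣ →* (ZMod p)ˣ).ker := by
    rw [Nat.card_eq_fintype_card, Fintype.card_subtype]
    congr 1
    ext y
    simp [MonoidHom.mem_ker]
  rw [h6, h1]

open Classical in
lemma sum_units (a : ZMod p) (ha : a ≠ 0) (m : ℕ) (hm : m ∣ p - 1) (g : ZMod p → ℂ) :
    ∑ y : (ZMod p)ˣ, g (a * (y : ZMod p) ^ m) = m * ∑ x ∈ cst a m, g x := by
  rw [sum_comp g (fun y : (ZMod p)ˣ => a * (y : ZMod p) ^ m), mul_sum]
  unfold cst
  apply sum_congr rfl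
  intro x hx
  rw [mem_image] at hx
  obtain ⟨y0, -, rfl⟩ := hx
  rw [fiber a ha m hm y0, nsmul_eq_mul]

lemma card_cst (a : ZMod p) (ha : a ≠ 0) (m : ℕ) (hm : m ∣ p - 1) : m * (cst a m).card = p - 1 := by
  classical
  have hp : p.Prime := Fact.out
  have h := sum_units a ha m hm (fun _ => 1)
  rw [sum_const, sum_const, card_univ, ZMod.card_units_eq_totient, Nat.totient_prime hp] at h
  simp only [nsmul_eq_mul, mul_one] at h
  exact_mod_cast h.symm

lemma sum_all (g : ZMod p → ℂ) : ∑ x : ZMod p, g x = g 0 + ∑ y : (ZMod p)ˣ, g (y : ZMod p) := by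
  classical
  rw [← Finset.add_sum_erase univ g (mem_univ 0)]
  congr 1
  symm
  apply sum_bij (fun (y : (ZMod p)ˣ) _ => (y : ZMod p))
  · intro y _
    rw [mem_erase]
    exact ⟨y.ne_zero, mem_univ _⟩
  · intro y _ z _ h
    exact Units.ext h
  · intro x hx
    rw [mem_erase] at hx
    exact ⟨Units.mk0 x hx.1, mem_univ _, rfl⟩
  · intro y _
    rfl

/-- sums of the values of a polynomial on a coset -/
lemma coset_sum (a : ZMod p) (ha : a ≠ 0) (m : ℕ) (hm : m ∣ p - 1) (D : ℕ) (hDp : D < p)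
    (f : (ZMod p)[X]) (h1 : 1 ≤ f.natDegree) (h2 : f.natDegree ≤ D) :
    ‖∑ x ∈ cst a m, (ZMod.stdAddChar (f.eval x) : ℂ)‖ ≤ (D + 1) * Real.sqrt p := by
  classical
  have hp : p.Prime := Fact.out
  have hp1 : 0 < p - 1 := by have := hp.two_le; omega
  have hm0 : 0 < m := Nat.pos_of_dvd_of_pos hm hp1
  have hmr : (0 : ℝ) < m := by exact_mod_cast hm0
  have hm1 : (1 : ℝ) ≤ m := by exact_mod_cast hm0
  have hmp : m < p := by
    have := Nat.le_of_dvd hp1 hm
    omega
  obtain ⟨g, hg⟩ : ∃ g : (ZMod p)[X], g = f.comp (C a * X ^ m) := ⟨_, rfl⟩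
  have hgd : g.natDegree = f.natDegree * m := by
    rw [hg, natDegree_comp, natDegree_C_mul_X_pow m a ha]
  have hnd : ¬ p ∣ g.natDegree := by
    rw [hgd]
    intro h
    rcases (Nat.Prime.dvd_mul hp).1 h with h | h
    · exact absurd (Nat.le_of_dvd h1 h) (by omega)
    · exact absurd (Nat.le_of_dvd hm0 h) (by omega)
  have hw := Pool.Agent.Y951.WP.weil_le p g hnd (ZMod.isPrimitive_stdAddChar p)
  have he : ∀ x : ZMod p, g.eval x = f.eval (a * x ^ m) := by
    intro x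
    rw [hg, eval_comp, eval_mul, eval_C, eval_pow, eval_X]
  simp_rw [he] at hw
  rw [sum_all (fun x => (ZMod.stdAddChar (f.eval (a * x ^ m)) : ℂ)),
    sum_units a ha m hm (fun x => (ZMod.stdAddChar (f.eval x) : ℂ))] at hw
  have hs1 : 1 ≤ Real.sqrt p := by
    rw [Real.one_le_sqrt]
    exact_mod_cast hp.one_lt.le
  have hdeg : ((g.natDegree - 1 : ℕ) : ℝ) ≤ D * m := by
    rw [hgd]
    have : f.natDegree * m - 1 ≤ D * m := (Nat.sub_le _ _).trans (Nat.mul_le_mul_right m h2)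
    exact_mod_cast this
  obtain ⟨S, hS⟩ : ∃ S : ℂ, S = ∑ x ∈ cst a m, (ZMod.stdAddChar (f.eval x) : ℂ) := ⟨_, rfl⟩
  rw [← hS] at hw ⊢
  obtain ⟨u, hu⟩ : ∃ u : ℂ, u = (ZMod.stdAddChar (f.eval (a * (0 : ZMod p) ^ m)) : ℂ) := ⟨_, rfl⟩
  rw [← hu] at hw
  have hu1 : ‖u‖ = 1 := by rw [hu]; exact AddChar.norm_apply _ _
  have h3 : ‖(m : ℂ) * S‖ ≤ D * m * Real.sqrt p + 1 := by
    calc ‖(m : ℂ) * S‖ = ‖(u + m * S) - u‖ := by ring_nf
      _ ≤ ‖u + m * S‖ + ‖u‖ := norm_sub_le _ _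
      _ ≤ D * m * Real.sqrt p + 1 := by
          rw [hu1]
          have := mul_le_mul_of_nonneg_right hdeg (Real.sqrt_nonneg (p : ℝ))
          linarith
  rw [norm_mul, Complex.norm_natCast] at h3
  have h4 : (m : ℝ) * ‖S‖ ≤ m * ((D + 1) * Real.sqrt p) := by
    refine h3.trans ?_
    have h5 : 1 ≤ (m : ℝ) * Real.sqrt p := by nlinarith
    calc (D : ℝ) * m * Real.sqrt p + 1 ≤ D * m * Real.sqrt p + m * Real.sqrt p := by linarith
      _ = m * ((D + 1) * Real.sqrt p) := by ring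
  exact le_of_mul_le_mul_left h4 hmr

/-- sums of the combinations of several polynomials on a coset -/
theorem poly_coset (k D : ℕ) (f : Fin k → (ZMod p)[X]) (hD : ∀ i, (f i).natDegree ≤ D) (hDp : D < p)
    (hf : ∀ h : Fin k → ZMod p, h ≠ 0 → 1 ≤ (∑ i, C (h i) * f i).natDegree)
    (a : ZMod p) (ha : a ≠ 0) (m : ℕ) (hm : m ∣ p - 1)
    (h : Fin k → ZMod p) (hh : h ≠ 0) :
    ‖∑ x ∈ cst a m, (ZMod.stdAddChar (∑ i, h i * (f i).eval x) : ℂ)‖ ≤ (D + 1) * Real.sqrt p := by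
  have h1 := hf h hh
  have h2 : (∑ i, C (h i) * f i).natDegree ≤ D :=
    natDegree_sum_le_of_forall_le _ _ fun i _ => (natDegree_C_mul_le _ _).trans (hD i)
  have h3 := coset_sum a ha m hm D hDp (∑ i, C (h i) * f i) h1 h2
  have h4 : ∀ x : ZMod p, (∑ i, C (h i) * f i).eval x = ∑ i, h i * (f i).eval x := by
    intro x
    rw [eval_finsetSum]
    refine Finset.sum_congr rfl fun i _ => ?_
    rw [eval_mul, eval_C]
  simp_rw [h4] at h3
  exact h3

end

end Pool.Agent.L5helper16.PC
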